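import Pool.Agent.H4.EngelRad

set_option autoImplicit false

namespace Pool.Agent.Results.MP_2c0ed3_al.Radical

open Pool.Agent.H4.EngelRad

/-- Over every field there is an Engel Lie algebra `A` and an element `a` of its locally nilpotent
radical such that the right multiplication by `a` is not in the locally nilpotent radical of the
multiplication algebra `A*`. -/
theorem result (F : Type) [Field F] : ∃ (A : Type) (_ : LieRing A) (_ : LieAlgebra F A),
    IsEngelLie A ∧ ∃ a : A, a ∈ lieRad F A ∧ rightMul F a ∉ assocRad (multAlg F A) :=
  Pool.Agent.H4.EngelRad.main F

end Pool.Agent.Results.MP_2c0ed3_al.Radical
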